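import Mathlib

/-!
Definitions for the amalgamation problem for compact groups.
-/

namespace Pool.Agent.MP_caba0b_al.H78

open Finset

universe u

/-- The compact group `A` is an amalgamation base among compact Hausdorff groups. -/
def InClass (A : Type) [Group A] [TopologicalSpace A] : Prop :=
  ∀ (B C : Type u) [Group B] [TopologicalSpace B] [IsTopologicalGroup B] [CompactSpace B]
    [T2Space B] [Group C] [TopologicalSpace C] [IsTopologicalGroup C] [CompactSpace C] [T2Space C]
    (i : A →ₜ* B) (j : A →ₜ* C), Function.Injective i → Function.Injective j →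
    ∃ (D : Type u) (_ : Group D) (_ : TopologicalSpace D) (_ : IsTopologicalGroup D)
      (_ : CompactSpace D) (_ : T2Space D) (f : B →ₜ* D) (g : C →ₜ* D),
      Function.Injective f ∧ Function.Injective g ∧ ∀ a, f (i a) = g (j a)

/-- The unitary group. -/
abbrev U (n : ℕ) := Matrix.unitaryGroup (Fin n) ℂ

/-- Diagonal unitary matrices. -/
noncomputable def diagU {n : ℕ} (t : Fin n → Circle) : U n :=
  ⟨Matrix.diagonal fun i => (t i : ℂ), by
    rw [Matrix.mem_unitaryGroup_iff, Matrix.star_eq_conjTranspose, Matrix.diagonal_conjTranspose,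
      Matrix.diagonal_mul_diagonal, ← Matrix.diagonal_one]
    congr 1
    funext i
    simp [Complex.mul_conj, Circle.normSq_coe]⟩

/-- The trace of a unitary matrix. -/
def tr {n : ℕ} (v : U n) : ℂ := Matrix.trace (v : Matrix (Fin n) (Fin n) ℂ)

/-- Characters of continuous finite dimensional unitary representations. -/
def IsCh (G : Type*) [Group G] [TopologicalSpace G] (χ : G → ℂ) : Prop :=
  ∃ (n : ℕ) (ρ : G →ₜ* U n), ∀ g, tr (ρ g) = χ g

/-- A presentation of a group as an extension of the cyclic group of order four by a torus. -/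
structure Model (A : Type) [Group A] [TopologicalSpace A] where
  ι : Circle × Circle →ₜ* A
  g : A
  inj : Function.Injective ι
  conj : ∀ x y, g * ι (x, y) * g⁻¹ = ι (y⁻¹, x)
  pow4 : g ^ 4 = 1
  cover : ∀ a, ∃ (t : Circle × Circle) (k : ℕ), k < 4 ∧ a = ι t * g ^ k

/-- The plane lattice. -/
abbrev Z2 := ℤ × ℤ

variable {m : ℕ}

/-- The weight of a torus attached to a weight of the unitary group. -/
def ell (w : Fin m → Z2) (l : Fin m → ℤ) : Z2 := ∑ i, l i • w i

/-- Squared length in the plane lattice. -/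
def n2 (v : Z2) : ℤ := v.1 ^ 2 + v.2 ^ 2

/-- Scalar product in the plane lattice. -/
def dot (a b : Z2) : ℤ := a.1 * b.1 + a.2 * b.2

/-- Determinant in the plane lattice. -/
def det2 (a b : Z2) : ℤ := a.1 * b.2 - a.2 * b.1

/-- Squared length. -/
def sq (l : Fin m → ℤ) : ℤ := ∑ i, l i ^ 2

/-- Isotropic, generating and rotation invariant systems of weights. -/
structure Good (c : ℕ) (w : Fin m → Z2) : Prop where
  h11 : ∑ i, (w i).1 ^ 2 = c
  h22 : ∑ i, (w i).2 ^ 2 = c
  h12 : ∑ i, (w i).1 * (w i).2 = 0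
  surj : Function.Surjective (ell w)
  rot : ∃ τ : Equiv.Perm (Fin m), ∀ i, w (τ i) = (-(w i).2, (w i).1)

/-- Truncated binomial coefficient. -/
def hK (K : ℕ) (x : ℤ) : ℤ := if 0 ≤ x then (x.toNat.choose K : ℤ) else 0

/-- The shifted weights that enter a Schur coefficient. -/
def shift (l : Fin m → ℤ) (σ : Equiv.Perm (Fin m)) : Fin m → ℤ :=
  fun i => l i - ((i : ℕ) : ℤ) + ((σ i : ℕ) : ℤ)

/-- The Schur coefficient of a symmetric function on the weight lattice. -/
def coef {R : Type*} [Ring R] (f : (Fin m → ℤ) → R) (l : Fin m → ℤ) : R :=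
  ∑ σ : Equiv.Perm (Fin m), ((Equiv.Perm.sign σ : ℤ) : R) * f (shift l σ)

/-- The highest weight of the standard representation. -/
def std (m : ℕ) : Fin m → ℤ := fun i => if (i : ℕ) = 0 then 1 else 0

/-- A character of order dividing four. -/
noncomputable def chi (e l : Fin m → ℤ) : ℂ := Complex.I ^ (∑ i, e i * l i)

/-- A box in the weight lattice. -/
noncomputable def box (m X : ℕ) : Finset (Fin m → ℤ) :=
  Fintype.piFinset fun _ => Finset.Icc (-(X : ℤ)) X

/-- The radial truncated binomial weight. -/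
noncomputable def rad (m K X a : ℕ) : (Fin m → ℤ) →₀ ℤ :=
  Finsupp.onFinset (box m X) (fun l => if l ∈ box m X then hK K (X - a * sq l) else 0)
    (fun l h => by by_contra h'; exact h (if_neg h'))

lemma sq_nonneg' (l : Fin m → ℤ) : 0 ≤ sq l := Finset.sum_nonneg fun _ _ => sq_nonneg _

lemma hK_of_neg {K : ℕ} {x : ℤ} (h : x < 0) : hK K x = 0 := if_neg (not_le.mpr h)

lemma hK_nonneg (K : ℕ) (x : ℤ) : 0 ≤ hK K x := by
  unfold hK; split_ifs <;> positivity

lemma mem_box_of_sq_le {X : ℕ} {l : Fin m → ℤ} (h : sq l ≤ X) : l ∈ box m X := by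
  rw [box, Fintype.mem_piFinset]
  intro i
  have h1 : l i ^ 2 ≤ sq l :=
    Finset.single_le_sum (f := fun i => l i ^ 2) (fun _ _ => sq_nonneg _) (Finset.mem_univ i)
  have h2 : |l i| ≤ l i ^ 2 := by
    rw [← sq_abs]; exact Int.le_self_sq _
  rw [Finset.mem_Icc, ← abs_le]
  linarith

lemma rad_apply {K X a : ℕ} (ha : 1 ≤ a) (l : Fin m → ℤ) :
    rad m K X a l = hK K (X - a * sq l) := by
  rw [rad, Finsupp.onFinset_apply]
  split_ifs with h
  · rfl
  · symm
    apply hK_of_neg
    by_contra h'
    apply h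
    apply mem_box_of_sq_le
    have h0 := sq_nonneg' l
    have h1 : (1 : ℤ) ≤ a := by exact_mod_cast ha
    nlinarith

lemma support_rad_subset (K X a : ℕ) : (rad m K X a).support ⊆ box m X :=
  Finsupp.support_onFinset_subset

lemma card_box (m X : ℕ) : (box m X).card = (2 * X + 1) ^ m := by
  rw [box, Fintype.card_piFinset]
  simp only [Int.card_Icc, Finset.prod_const, Finset.card_univ, Fintype.card_fin]
  congr 1
  omega

end Pool.Agent.MP_caba0b_al.H78
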