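import Pool.Agent.MP_caba0b_al.H43.Inv0

/-! Plane geometry for the bounded inverse. -/

namespace Pool.Agent.MP_caba0b_al.H78

open Equiv Pool.Agent.MP_caba0b_al.H43

lemma ip_via (z e f : ℂ) (he : ‖e‖ = 1) : ip z f = ip z e * ip e f - cr z e * cr e f := by
  have h := nsq_c e
  rw [he] at h
  simp only [ip_eq, cr_eq]
  linear_combination (z.re * f.re + z.im * f.im) * h

lemma cr_via (z e f : ℂ) (he : ‖e‖ = 1) : cr z f = ip z e * cr e f + cr z e * ip e f := by
  have h := nsq_c e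
  rw [he] at h
  simp only [ip_eq, cr_eq]
  linear_combination (z.im * f.re - z.re * f.im) * h

lemma sq_unit (z : ℂ) {e : ℂ} (he : ‖e‖ = 1) : ip z e ^ 2 + cr z e ^ 2 = ‖z‖ ^ 2 := by
  rw [ip_sq_add, he]; ring

lemma abs_ip_unit (z : ℂ) {e : ℂ} (he : ‖e‖ = 1) : |ip z e| ≤ ‖z‖ := by
  simpa [he] using abs_ip_le z e

lemma abs_cr_unit (z : ℂ) {e : ℂ} (he : ‖e‖ = 1) : |cr z e| ≤ ‖z‖ := by
  simpa [he] using abs_cr_le z e

section

variable {m : ℕ} {ε c η κ : ℝ} (h : Cst m ε c η κ)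
include h

lemma e1 : ε ≤ 1 := by
  have h1 : (1 : ℝ) ≤ m := by exact_mod_cast h.hm
  have h2 : (1 : ℝ) ≤ (m : ℝ) ^ 2 := one_le_pow₀ h1
  nlinarith [h.sep, h.e0]

lemma c_half : 1 / 2 ≤ c := by nlinarith [h.c2, h.c0, h.c1]

lemma k1 : κ ≤ 1 := by nlinarith [h.h5, h.h4, e1 h, h.e0, h.η0]

lemma other {u v : GaussianInt} (z : ℂ) (hu : Ex m u) (hv : Ex m v) (h1 : v ≠ u) (h2 : v ≠ -u) :
    ip z (un v) ≤ (1 - ε / 2) * |ip z (un u)| + |cr z (un u)| := by
  have hs := ex_sep h.sep hu hv h1 h2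
  have h3 := sq_unit (un u) hv.norm_un
  rw [hu.norm_un] at h3
  have he := e1 h
  have h4 : |ip (un u) (un v)| ≤ 1 - ε / 2 := by
    apply abs_le_of_sq_le_sq _ (by linarith)
    nlinarith [sq_nonneg ε]
  have h5 : |cr (un u) (un v)| ≤ 1 := by simpa [hu.norm_un] using abs_cr_unit (un u) hv.norm_un
  rw [ip_via z (un u) (un v) hu.norm_un]
  have h6 : ip z (un u) * ip (un u) (un v) ≤ (1 - ε / 2) * |ip z (un u)| := by
    refine (le_abs_self _).trans ?_
    rw [abs_mul, mul_comm]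
    exact mul_le_mul_of_nonneg_right h4 (abs_nonneg _)
  have h7 : -(cr z (un u) * cr (un u) (un v)) ≤ |cr z (un u)| := by
    refine (neg_le_abs _).trans ?_
    rw [abs_mul]
    exact mul_le_of_le_one_right (abs_nonneg _) h5
  linarith

lemma ball {R : ℝ} {z : ℂ} (hz : ‖z‖ ≤ c * R) : inP m c R z := by
  have hR : 0 ≤ R := by
    by_contra hc
    nlinarith [norm_nonneg z, h.c0]
  refine ⟨by nlinarith [h.c1], fun u hu => ?_⟩
  exact ((le_abs_self _).trans (abs_ip_unit z hu.norm_un)).trans hz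

lemma mono {R R' : ℝ} {z : ℂ} (hR : R ≤ R') (hz : inP m c R z) : inP m c R' z :=
  ⟨hz.1.trans hR, fun u hu => (hz.2 u hu).trans (mul_le_mul_of_nonneg_left hR h.c0.le)⟩

omit h in
lemma act_inP {R : ℝ} {z : ℂ} {ζ : GaussianInt} (s : Bool) (hζ : ζ.norm = 1)
    (hz : inP m c R z) : inP m c R (actC ζ s z) := by
  refine ⟨by rw [norm_actC hζ]; exact hz.1, fun u hu => ?_⟩
  obtain ⟨ζ', h1, h2, _⟩ := act_surj hζ s
  rw [← h2 u, un_act hζ, ip_actC hζ]
  exact hz.2 _ (hu.act h1 s)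

/-- a point of the disc with controlled height and small normal part lies in the region -/
lemma caps {R : ℝ} {z : ℂ} {u : GaussianInt} (hu : Ex m u) (h0 : ‖z‖ ≤ R)
    (h1 : |ip z (un u)| ≤ c * R) (h2 : |cr z (un u)| ≤ ε / 8 * R) : inP m c R z := by
  refine ⟨h0, fun v hv => ?_⟩
  have hR : 0 ≤ R := (norm_nonneg z).trans h0
  by_cases a1 : v = u
  · rw [a1]; exact (le_abs_self _).trans h1
  by_cases a2 : v = -u
  · rw [a2, un_neg, ip_neg]; exact (neg_le_abs _).trans h1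
  refine (other h z hu hv a1 a2).trans ?_
  have h3 : (1 - ε / 2) * |ip z (un u)| ≤ (1 - ε / 2) * (c * R) :=
    mul_le_mul_of_nonneg_left h1 (by linarith [e1 h])
  have h4 : 0 ≤ ε * R * (c - 1 / 2) :=
    mul_nonneg (mul_nonneg h.e0.le hR) (by linarith [c_half h])
  have h5 : 0 ≤ ε * R := mul_nonneg h.e0.le hR
  nlinarith

lemma strip {R : ℝ} {z : ℂ} {u : GaussianInt} (hu : Ex m u) (h1 : |ip z (un u)| ≤ c * R)
    (h2 : |cr z (un u)| ≤ η * R) : inP m c R z := by
  have hR : 0 ≤ R := by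
    by_contra hc
    nlinarith [abs_nonneg (ip z (un u)), h.c0]
  refine caps h hu ?_ h1 (h2.trans (mul_le_mul_of_nonneg_right (by linarith [h.h4, h.e0]) hR))
  apply le_of_sq_le_sq _ hR
  have h3 := sq_unit z hu.norm_un
  have h4 := pow_le_pow_left₀ (abs_nonneg _) h1 2
  have h5 := pow_le_pow_left₀ (abs_nonneg _) h2 2
  rw [sq_abs, mul_pow] at h4 h5
  nlinarith [mul_le_mul_of_nonneg_right h.h3 (sq_nonneg R)]

lemma two {δ : ℝ} {z : ℂ} {u v : GaussianInt} (hu : Ex m u) (hv : Ex m v) (h1 : v ≠ u)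
    (h2 : v ≠ -u) (h3 : |cr z (un u)| ≤ δ) (h4 : |cr z (un v)| ≤ δ) : ε * ‖z‖ ≤ 3 * δ := by
  have hs := ex_sep h.sep hu hv h1 h2
  have h5 : |cr (un u) (un v)| ≤ 1 := by simpa [hu.norm_un] using abs_cr_unit (un u) hv.norm_un
  have h5' : |ip (un u) (un v)| ≤ 1 := by simpa [hu.norm_un] using abs_ip_unit (un u) hv.norm_un
  have h6 : ε ≤ |cr (un u) (un v)| := by
    rw [← sq_abs] at hs
    nlinarith [abs_nonneg (cr (un u) (un v))]
  have h7 : |ip z (un u)| * |cr (un u) (un v)| ≤ 2 * δ := by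
    have e : ip z (un u) * cr (un u) (un v) = cr z (un v) - cr z (un u) * ip (un u) (un v) := by
      rw [cr_via z (un u) (un v) hu.norm_un]; ring
    rw [← abs_mul, e]
    refine (abs_sub _ _).trans ?_
    rw [abs_mul]
    have := mul_le_of_le_one_right (abs_nonneg (cr z (un u))) h5'
    linarith
  have h8 : ‖z‖ ≤ |ip z (un u)| + |cr z (un u)| := by
    apply le_of_sq_le_sq _ (by positivity)
    rw [← sq_unit z hu.norm_un, add_sq, sq_abs, sq_abs]
    nlinarith [mul_nonneg (abs_nonneg (ip z (un u))) (abs_nonneg (cr z (un u)))]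
  have h9 : |ip z (un u)| * ε ≤ |ip z (un u)| * |cr (un u) (un v)| :=
    mul_le_mul_of_nonneg_left h6 (abs_nonneg _)
  have h10 : ε * |cr z (un u)| ≤ δ :=
    (mul_le_of_le_one_left (abs_nonneg _) (e1 h)).trans h3
  nlinarith [mul_le_mul_of_nonneg_left h8 h.e0.le]

lemma plane : Plane m ε c η where
  mono := mono h
  act := act_inP
  ball := ball h
  other := other h
  strip := strip h
  two := two h

/-- the exceptional case -/
lemma exc {R D : ℝ} {z z' : ℂ} {u v : GaussianInt} (hu : Ex m u) (hv : Ex m v) (hD : 0 ≤ D)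
    (hDR : D ≤ κ * R) (hz : inP m c R z) (hi : ip z' (un v) = ip z (un u))
    (ht : |cr z' (un v)| ≤ (1 - ε / 2) * |cr z (un u)| + D) :
    inP m c R z' ∧ (inP m c (c * R) z' ∨ |cr z (un u)| ≤ ε / 8 * R) := by
  have hR : 0 ≤ R := (norm_nonneg z).trans hz.1
  have he := e1 h
  have he0 := h.e0
  have hk := k1 h
  have hk0 := h.k0
  have n1 := sq_unit z hu.norm_un
  have n2 := sq_unit z' hv.norm_un
  rw [hi] at n2
  rw [← sq_abs (cr z (un u))] at n1
  rw [← sq_abs (cr z' (un v))] at n2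
  have htR : |cr z (un u)| ≤ R := (abs_cr_unit z hu.norm_un).trans hz.1
  have hzR := pow_le_pow_left₀ (norm_nonneg z) hz.1 2
  have hh : |ip z' (un v)| ≤ c * R := by
    rw [hi, abs_le]
    have := hz.2 _ hu.neg
    rw [un_neg, ip_neg] at this
    exact ⟨by linarith, hz.2 u hu⟩
  set t := |cr z (un u)| with htdef
  set t' := |cr z' (un v)| with ht'def
  have t0 : 0 ≤ t := abs_nonneg _
  have t0' : 0 ≤ t' := abs_nonneg _
  by_cases hc : t ≤ ε / 8 * R
  · refine ⟨?_, Or.inr hc⟩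
    by_cases hd : D ≤ ε / 2 * t
    · have h1 : t' ≤ t := by linarith
      refine caps h hv ?_ hh (h1.trans hc)
      apply le_of_sq_le_sq _ hR
      have := pow_le_pow_left₀ t0' h1 2
      linarith
    · refine strip h hv hh ?_
      have h1 : ε * t' ≤ ε * (η * R) := by
        have a1 : ε * t' ≤ ε * (t + D) :=
          mul_le_mul_of_nonneg_left (by nlinarith [mul_nonneg he0.le t0]) he0.le
        have a2 : ε * D ≤ D := mul_le_of_le_one_left hD he
        have a3 : 3 * κ * R ≤ ε * η * R := mul_le_mul_of_nonneg_right h.h5 hR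
        nlinarith
      exact le_of_mul_le_mul_left h1 he0
  · have hb : inP m c (c * R) z' := by
      refine ball h ?_
      apply le_of_sq_le_sq _ (mul_nonneg h.c0.le (mul_nonneg h.c0.le hR))
      have a1 := pow_le_pow_left₀ t0' ht 2
      have a2 : (ε / 8 * R) ^ 2 ≤ t ^ 2 :=
        pow_le_pow_left₀ (by positivity) (not_le.1 hc).le 2
      have a3 : (1 - ε / 2) * t * D ≤ κ * R ^ 2 := by
        have b1 : (1 - ε / 2) * t ≤ R := by nlinarith [mul_nonneg he0.le t0]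
        have b2 := mul_le_mul b1 hDR hD hR
        linarith
      have a4 : D ^ 2 ≤ κ * R ^ 2 := by
        have b1 := pow_le_pow_left₀ hD hDR 2
        have b2 : κ ^ 2 * R ^ 2 ≤ κ * R ^ 2 :=
          mul_le_mul_of_nonneg_right (by nlinarith) (sq_nonneg R)
        rw [mul_pow] at b1
        linarith
      have a5 : (1 - ε / 2) ^ 2 * t ^ 2 ≤ (1 - ε / 2) * t ^ 2 :=
        mul_le_mul_of_nonneg_right (by nlinarith) (sq_nonneg t)
      have a6 : ε / 2 * (ε / 8 * R) ^ 2 ≤ ε / 2 * t ^ 2 :=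
        mul_le_mul_of_nonneg_left a2 (by positivity)
      have a7 := mul_le_mul_of_nonneg_right h.h2 (sq_nonneg R)
      have a8 : t' ^ 2 ≤ (1 - ε / 2) * t ^ 2 + 3 * (κ * R ^ 2) := by nlinarith
      nlinarith
    exact ⟨mono h (by nlinarith [h.c1]) hb, Or.inl hb⟩

lemma g12 (S : Side) (hS : S.Geo m ε) : S.G12 m ε c κ := by
  intro R D ν hD hDR hz hdf
  have hR : 0 ≤ R := (norm_nonneg _).trans hz.1
  have he := e1 h
  have key : ∀ π : Perm (Fin S.n), inP m c R (S.push (ν ∘ π)) ∧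
      ((∃ ζ s, S.Glob π ζ s) ∨ inP m c (c * R) (S.push (ν ∘ π)) ∨
        ∃ u v : GaussianInt, Ex m u ∧ Ex m v ∧ S.Fuse π u v ∧
          |cr (S.push ν) (un u)| ≤ ε / 8 * R ∧
          |cr (S.push (ν ∘ π)) (un v)| ≤ (1 - ε / 2) * |cr (S.push ν) (un u)| + D) := by
    intro π
    obtain ⟨E, hE, hE2⟩ := Side.pR_perm (S := S) (fun i => (ν i : ℝ)) π
    have e1' : (S.push (ν ∘ π) : ℂ) = S.pR ((fun i => (ν i : ℝ)) ∘ π) := Side.push_cast' _
    rw [← Side.push_cast', ← e1'] at hE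
    rw [S.df_cast] at hE2
    have hED : ‖E‖ ≤ D := le_of_sq_le_sq (hE2.trans hdf) hD
    rcases hS.cls π with ⟨ζ, s, hg⟩ | hcon | ⟨u, v, hu, hv, hf, hn⟩
    · refine ⟨?_, Or.inl ⟨ζ, s, hg⟩⟩
      rw [hg.push, act_cast]
      exact act_inP s hg.1 hz
    · have h1 : ‖S.A π (S.push ν)‖ ≤ (1 - ε / 2) * R := by
        apply le_of_sq_le_sq _ (mul_nonneg (by linarith) hR)
        have a1 := pow_le_pow_left₀ (norm_nonneg _) hz.1 2
        have a2 := mul_le_mul_of_nonneg_left a1 (sub_nonneg.2 he)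
        have a3 := hcon (S.push ν)
        nlinarith [sq_nonneg (ε * R)]
      have hb : inP m c (c * R) (S.push (ν ∘ π)) := by
        refine ball h ?_
        rw [hE]
        refine (norm_add_le _ _).trans ?_
        nlinarith [mul_le_mul_of_nonneg_right h.h1 hR]
      exact ⟨mono h (by nlinarith [h.c1]) hb, Or.inr (Or.inl hb)⟩
    · have hi : ip (S.push (ν ∘ π)) (un v) = ip (S.push ν) (un u) := by
        rw [e1', Side.push_cast']
        exact hf.un.ip _
      have ht : |cr (S.push (ν ∘ π)) (un v)| ≤ (1 - ε / 2) * |cr (S.push ν) (un u)| + D := by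
        rw [hE, cr_add]
        refine (abs_add_le _ _).trans (add_le_add ?_ ((abs_cr_unit E hv.norm_un).trans hED))
        apply abs_le_of_sq_le_sq _ (mul_nonneg (by linarith) (abs_nonneg _))
        rw [mul_pow, sq_abs]
        refine (hn _).trans (mul_le_mul_of_nonneg_right ?_ (sq_nonneg _))
        nlinarith [sq_nonneg ε]
      obtain ⟨b1, b2⟩ := exc h hu hv hD hDR hz hi ht
      refine ⟨b1, Or.inr ?_⟩
      rcases b2 with b2 | b2
      · exact Or.inl b2
      · exact Or.inr ⟨u, v, hu, hv, hf, b2, ht⟩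
  refine ⟨⟨fun π => (key π).1, ?_⟩, fun π => (key π).2⟩
  have a1 := pow_le_pow_left₀ (norm_nonneg _) hz.1 2
  rw [← norm_gi] at a1
  have a2 : D ≤ R := hDR.trans (mul_le_of_le_one_left hR (k1 h))
  have a3 := pow_le_pow_left₀ hD a2 2
  nlinarith [sq_nonneg R]

end

theorem geom : GeomStmt := fun _ _ _ _ _ h => ⟨plane h, g12 h⟩

end Pool.Agent.MP_caba0b_al.H78
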