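import Mathlib
import Pool.Agent.MP_caba0b_al.H78.Defs

/-!
Basic facts on unitary groups and characters.
-/

namespace Pool.Agent.MP_caba0b_al.H78

open Finset Matrix

instance compactU (n : ℕ) : CompactSpace (U n) := by
  refine isCompact_iff_compactSpace.mp ?_
  have hc : IsCompact (Set.pi Set.univ fun _ : Fin n =>
      Set.pi Set.univ fun _ : Fin n => Metric.closedBall (0 : ℂ) 1) :=
    isCompact_univ_pi fun _ => isCompact_univ_pi fun _ => isCompact_closedBall _ _
  refine hc.of_isClosed_subset (isClosed_unitary (R := Matrix (Fin n) (Fin n) ℂ)) ?_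
  intro A hA i _ j _
  simpa using entry_norm_bound_of_unitary hA i j

lemma continuous_tr {n : ℕ} : Continuous (tr : U n → ℂ) :=
  (continuous_subtype_val).matrix_trace

lemma tr_one (n : ℕ) : tr (1 : U n) = n := by simp [tr]

lemma tr_conj {n : ℕ} (v x : U n) : tr (v * x * v⁻¹) = tr x := by
  unfold tr
  rw [Submonoid.coe_mul, Submonoid.coe_mul, Matrix.trace_mul_cycle, ← Submonoid.coe_mul,
    inv_mul_cancel]
  simp

lemma tr_diagU {n : ℕ} (t : Fin n → Circle) : tr (diagU t) = ∑ i, (t i : ℂ) := by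
  simp [tr, diagU]

lemma diagU_mul {n : ℕ} (s t : Fin n → Circle) : diagU (s * t) = diagU s * diagU t := by
  apply Subtype.ext
  simp [diagU, Matrix.diagonal_mul_diagonal]

lemma diagU_one {n : ℕ} : diagU (1 : Fin n → Circle) = 1 := by
  apply Subtype.ext
  simp [diagU]

lemma diagU_injective {n : ℕ} : Function.Injective (diagU : (Fin n → Circle) → U n) := by
  intro s t h
  have h1 := congrArg Subtype.val h
  simp only [diagU] at h1
  funext i
  exact Circle.ext (congrFun (Matrix.diagonal_injective h1) i)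

lemma tr_re_le {n : ℕ} (v : U n) : (tr v).re ≤ n := by
  unfold tr
  rw [Matrix.trace, Complex.re_sum]
  calc ∑ i, (Matrix.diag (v : Matrix (Fin n) (Fin n) ℂ) i).re ≤ ∑ _i : Fin n, (1 : ℝ) :=
        Finset.sum_le_sum fun i _ =>
          (Complex.re_le_norm _).trans (entry_norm_bound_of_unitary v.2 i i)
    _ = n := by simp

lemma eq_one_of_tr {n : ℕ} (v : U n) (h : (tr v).re = n) : v = 1 := by
  set A : Matrix (Fin n) (Fin n) ℂ := v.1 with hA
  have h1 : ∀ i, (A i i).re = 1 := by
    have hle : ∀ i ∈ (Finset.univ : Finset (Fin n)), (A i i).re ≤ 1 := fun i _ =>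
      (Complex.re_le_norm _).trans (entry_norm_bound_of_unitary v.2 i i)
    have hs : ∑ i, (A i i).re = ∑ _i : Fin n, (1 : ℝ) := by
      unfold tr at h
      rw [Matrix.trace, Complex.re_sum] at h
      simpa using h
    intro i
    exact (Finset.sum_eq_sum_iff_of_le hle).mp hs i (Finset.mem_univ i)
  have hu : A * star A = 1 := Matrix.mem_unitaryGroup_iff.mp v.2
  apply Subtype.ext
  change A = 1
  ext i j
  have h2 : ∑ k, Complex.normSq (A i k) = 1 := by
    have := congrFun (congrFun hu i) i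
    rw [Matrix.mul_apply, Matrix.one_apply_eq] at this
    have h3 := congrArg Complex.re this
    rw [Complex.re_sum] at h3
    simpa [Matrix.star_apply, Complex.mul_conj] using h3
  have h4 : 1 ≤ Complex.normSq (A i i) := by
    rw [Complex.normSq_apply, h1 i]; nlinarith [mul_self_nonneg (A i i).im]
  rw [← Finset.add_sum_erase _ _ (Finset.mem_univ i)] at h2
  have h5 : 0 ≤ ∑ k ∈ Finset.univ.erase i, Complex.normSq (A i k) :=
    Finset.sum_nonneg fun _ _ => Complex.normSq_nonneg _
  by_cases hij : i = j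
  · subst hij
    rw [Matrix.one_apply_eq]
    have h6 : (A i i).im * (A i i).im = 0 := by
      rw [Complex.normSq_apply, h1 i] at h2
      nlinarith [mul_self_nonneg (A i i).im]
    exact Complex.ext (by simpa using h1 i) (by simpa using h6)
  · rw [Matrix.one_apply_ne hij]
    have h6 : ∑ k ∈ Finset.univ.erase i, Complex.normSq (A i k) = 0 := by linarith
    rw [Finset.sum_eq_zero_iff_of_nonneg fun _ _ => Complex.normSq_nonneg _] at h6
    exact Complex.normSq_eq_zero.mp (h6 j (Finset.mem_erase.mpr ⟨Ne.symm hij, Finset.mem_univ _⟩))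

section Ch

variable {G : Type*} [Group G] [TopologicalSpace G]

/-- A unitary matrix representation on any finite index type gives a character. -/
lemma isCh_of_matrix {ι : Type*} [Fintype ι] [DecidableEq ι] (ρ : G →* Matrix ι ι ℂ)
    (hc : Continuous ρ) (hu : ∀ g, ρ g * star (ρ g) = 1) :
    IsCh G fun g => Matrix.trace (ρ g) := by
  let e := Fintype.equivFin ι
  let r : Matrix ι ι ℂ ≃ₐ[ℂ] Matrix (Fin (Fintype.card ι)) (Fin (Fintype.card ι)) ℂ :=
    Matrix.reindexAlgEquiv ℂ ℂ e
  have hmem : ∀ g, r (ρ g) ∈ U (Fintype.card ι) := by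
    intro g
    rw [Matrix.mem_unitaryGroup_iff]
    have : star (r (ρ g)) = r (star (ρ g)) := by
      ext i j; simp [r, Matrix.star_apply]
    rw [this, ← map_mul, hu, map_one]
  refine ⟨Fintype.card ι,
    { toFun := fun g => ⟨r (ρ g), hmem g⟩
      map_one' := Subtype.ext (by simp)
      map_mul' := fun a b => Subtype.ext (by simp)
      continuous_toFun := Continuous.subtype_mk ?_ _ }, fun g => ?_⟩
  · exact hc.matrix_reindex e e
  · change Matrix.trace (Matrix.reindex e e (ρ g)) = _
    simp [Matrix.trace, Equiv.sum_comp e.symm fun i => ρ g i i]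

lemma IsCh.add {χ ψ : G → ℂ} (h1 : IsCh G χ) (h2 : IsCh G ψ) : IsCh G fun g => χ g + ψ g := by
  obtain ⟨n, ρ, hρ⟩ := h1
  obtain ⟨k, π, hπ⟩ := h2
  let τ : G →* Matrix (Fin n ⊕ Fin k) (Fin n ⊕ Fin k) ℂ :=
    { toFun := fun g => Matrix.fromBlocks (ρ g : Matrix (Fin n) (Fin n) ℂ) 0 0
        (π g : Matrix (Fin k) (Fin k) ℂ)
      map_one' := by simp
      map_mul' := fun a b => by simp [Matrix.fromBlocks_multiply] }
  have hc : Continuous τ :=
    (continuous_subtype_val.comp ρ.continuous_toFun).matrix_fromBlocks continuous_const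
      continuous_const (continuous_subtype_val.comp π.continuous_toFun)
  have := isCh_of_matrix τ hc fun g => by
    have a1 : (ρ g : Matrix (Fin n) (Fin n) ℂ) * (ρ g : Matrix (Fin n) (Fin n) ℂ)ᴴ = 1 :=
      Matrix.mem_unitaryGroup_iff.mp (ρ g).2
    have a2 : (π g : Matrix (Fin k) (Fin k) ℂ) * (π g : Matrix (Fin k) (Fin k) ℂ)ᴴ = 1 :=
      Matrix.mem_unitaryGroup_iff.mp (π g).2
    simp [τ, Matrix.star_eq_conjTranspose, Matrix.fromBlocks_conjTranspose,
      Matrix.fromBlocks_multiply, a1, a2]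
  convert this using 2 with g
  rw [← hρ, ← hπ]
  simp [τ, tr, Matrix.trace, Fintype.sum_sum_type]

lemma IsCh.mul {χ ψ : G → ℂ} (h1 : IsCh G χ) (h2 : IsCh G ψ) : IsCh G fun g => χ g * ψ g := by
  obtain ⟨n, ρ, hρ⟩ := h1
  obtain ⟨k, π, hπ⟩ := h2
  let τ : G →* Matrix (Fin n × Fin k) (Fin n × Fin k) ℂ :=
    { toFun := fun g => Matrix.kroneckerMap (· * ·) (ρ g : Matrix (Fin n) (Fin n) ℂ)
        (π g : Matrix (Fin k) (Fin k) ℂ)
      map_one' := by simp
      map_mul' := fun a b => by simp [Matrix.mul_kronecker_mul] }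
  have hc : Continuous τ := by
    refine continuous_pi fun i => continuous_pi fun j => ?_
    exact ((continuous_subtype_val.comp ρ.continuous_toFun).matrix_elem i.1 j.1).mul
      ((continuous_subtype_val.comp π.continuous_toFun).matrix_elem i.2 j.2)
  have := isCh_of_matrix τ hc fun g => by
    have a1 : (ρ g : Matrix (Fin n) (Fin n) ℂ) * (ρ g : Matrix (Fin n) (Fin n) ℂ)ᴴ = 1 :=
      Matrix.mem_unitaryGroup_iff.mp (ρ g).2
    have a2 : (π g : Matrix (Fin k) (Fin k) ℂ) * (π g : Matrix (Fin k) (Fin k) ℂ)ᴴ = 1 :=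
      Matrix.mem_unitaryGroup_iff.mp (π g).2
    change Matrix.kroneckerMap (· * ·) _ _ * (Matrix.kroneckerMap (· * ·) _ _)ᴴ = 1
    rw [Matrix.conjTranspose_kronecker, ← Matrix.mul_kronecker_mul, a1, a2,
      Matrix.one_kronecker_one]
  convert this using 2 with g
  rw [← hρ, ← hπ]
  exact (Matrix.trace_kronecker _ _).symm

lemma isCh_const (n : ℕ) : IsCh G fun _ => (n : ℂ) :=
  ⟨n, 1, fun _ => tr_one n⟩

lemma isCh_zero : IsCh G fun _ => 0 := by simpa using isCh_const (G := G) 0

lemma IsCh.sum {ι : Type*} (s : Finset ι) {χ : ι → G → ℂ} (h : ∀ i ∈ s, IsCh G (χ i)) :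
    IsCh G fun g => ∑ i ∈ s, χ i g := by
  classical
  induction s using Finset.induction_on with
  | empty => simpa using isCh_zero
  | insert a s ha ih =>
    simp only [Finset.sum_insert ha]
    exact (h a (Finset.mem_insert_self _ _)).add
      (ih fun i hi => h i (Finset.mem_insert_of_mem hi))

lemma IsCh.nsmul {χ : G → ℂ} (h : IsCh G χ) (k : ℕ) : IsCh G fun g => (k : ℂ) * χ g :=
  (isCh_const k).mul h

lemma IsCh.comp {H : Type*} [Group H] [TopologicalSpace H] {χ : G → ℂ} (h : IsCh G χ)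
    (φ : H →ₜ* G) : IsCh H fun x => χ (φ x) := by
  obtain ⟨n, ρ, hρ⟩ := h
  exact ⟨n, ρ.comp φ, fun x => hρ _⟩

lemma IsCh.re_le {χ : G → ℂ} (h : IsCh G χ) (g : G) : (χ g).re ≤ (χ 1).re := by
  obtain ⟨n, ρ, hρ⟩ := h
  rw [← hρ, ← hρ, map_one, tr_one]
  simpa using tr_re_le (ρ g)

lemma IsCh.conj {χ : G → ℂ} (h : IsCh G χ) (v x : G) : χ (v * x * v⁻¹) = χ x := by
  obtain ⟨n, ρ, hρ⟩ := h
  rw [← hρ, ← hρ, map_mul, map_mul, map_inv, tr_conj]

lemma IsCh.continuous {χ : G → ℂ} (h : IsCh G χ) : Continuous χ := by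
  obtain ⟨n, ρ, hρ⟩ := h
  rw [← funext hρ]
  exact continuous_tr.comp ρ.continuous_toFun

lemma isCh_tr (n : ℕ) : IsCh (U n) tr := ⟨n, ContinuousMonoidHom.id _, fun _ => rfl⟩

/-- The kernel of a representation is read off from its character. -/
lemma eq_one_iff_tr {n : ℕ} (ρ : G →ₜ* U n) (g : G) :
    ρ g = 1 ↔ (tr (ρ g)).re = (tr (ρ 1)).re := by
  constructor
  · intro h; rw [h, map_one]
  · intro h
    apply eq_one_of_tr
    rw [h, map_one, tr_one]; simp

/-- A representation by isometries of a finite dimensional inner product space has a character. -/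
lemma isCh_of_isometry {E : Type*} [NormedAddCommGroup E] [InnerProductSpace ℂ E]
    [FiniteDimensional ℂ E] (π : G →* (E →ₗ[ℂ] E))
    (hc : ∀ v w, Continuous fun g => inner ℂ v (π g w))
    (hu : ∀ g v w, inner ℂ (π g v) (π g w) = inner ℂ v w) :
    IsCh G fun g => LinearMap.trace ℂ E (π g) := by
  let b := stdOrthonormalBasis ℂ E
  let ρ : G →* Matrix (Fin (Module.finrank ℂ E)) (Fin (Module.finrank ℂ E)) ℂ :=
    { toFun := fun g => LinearMap.toMatrix b.toBasis b.toBasis (π g)
      map_one' := by simp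
      map_mul' := fun x y => by rw [map_mul, LinearMap.toMatrix_mul] }
  have hap : ∀ g i j, ρ g i j = inner ℂ (b i) (π g (b j)) := by
    intro g i j
    simp [ρ, LinearMap.toMatrix_apply, OrthonormalBasis.repr_apply_apply]
  have hcont : Continuous ρ := by
    refine continuous_pi fun i => continuous_pi fun j => ?_
    simp only [hap]
    exact hc _ _
  have := isCh_of_matrix ρ hcont fun g => by
    rw [mul_eq_one_comm]
    ext i j
    rw [Matrix.mul_apply]
    simp only [Matrix.star_apply, hap, RCLike.star_def, inner_conj_symm]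
    rw [b.sum_inner_mul_inner, hu, Matrix.one_apply]
    exact orthonormal_iff_ite.mp b.orthonormal i j
  convert this using 2 with g
  exact LinearMap.trace_eq_matrix_trace ℂ b.toBasis (π g)

end Ch

end Pool.Agent.MP_caba0b_al.H78
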