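import Mathlib
import Pool.Agent.MP_caba0b_al.H78.Rep

/-!
The intermediate statements of the proof.
-/

namespace Pool.Agent.MP_caba0b_al.H78

open Finset

universe u

/-- Finite dimensional unitary representations separate the points of a compact group. -/
def PWStmt : Prop :=
  ∀ (G : Type u) [Group G] [TopologicalSpace G] [IsTopologicalGroup G] [CompactSpace G]
    [T2Space G] (b : G), b ≠ 1 → ∃ (n : ℕ) (ρ : G →ₜ* U n), ρ b ≠ 1

/-- Alternants. -/
noncomputable def alt {m : ℕ} (l : Fin m → ℤ) (t : Fin m → Circle) : ℂ :=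
  ∑ σ : Equiv.Perm (Fin m), ((Equiv.Perm.sign σ : ℤ) : ℂ) *
    ∏ i, (t (σ i) : ℂ) ^ (l i - ((i : ℕ) : ℤ))

/-- Every Schur function is the character of a representation of the unitary group. -/
def SchurAltStmt : Prop :=
  ∀ (m : ℕ) (l : Fin m → ℤ), Antitone l →
    ∃ χ : U m → ℂ, IsCh (U m) χ ∧ ∀ t, χ (diagU t) * alt 0 t = alt l t

/-- Symmetric functions on the weight lattice. -/
def Symm {m : ℕ} {R : Type*} (f : (Fin m → ℤ) → R) : Prop :=
  ∀ (σ : Equiv.Perm (Fin m)) (l : Fin m → ℤ), f (l ∘ σ) = f l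

/-- Symmetric, Schur positive, and containing the standard representation. -/
structure Pos {m : ℕ} (f : (Fin m → ℤ) →₀ ℤ) : Prop where
  symm : Symm f
  nonneg : ∀ l, Antitone l → 0 ≤ coef f l
  std : 0 < coef f (std m)

/-- Schur positive symmetric Laurent polynomials are characters of faithful representations. -/
def SchurSumStmt : Prop :=
  ∀ (m : ℕ), 0 < m → ∀ f : (Fin m → ℤ) →₀ ℤ, Pos f →
    ∃ (n : ℕ) (ρ : U m →ₜ* U n), Function.Injective ρ ∧
      ∀ t, tr (ρ (diagU t)) = f.sum fun l a => (a : ℂ) * ∏ i, (t i : ℂ) ^ l i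

/-- Representations with the same character are unitarily equivalent. -/
def CharIsoStmt : Prop :=
  ∀ (G : Type) [Group G] [TopologicalSpace G] [IsTopologicalGroup G] [CompactSpace G]
    [T2Space G] (n : ℕ) (ρ π : G →ₜ* U n), (∀ g, tr (ρ g) = tr (π g)) →
    ∃ v : U n, ∀ g, π g = v * ρ g * v⁻¹

/-- Commuting unitary matrices are simultaneously diagonalisable. -/
def DiagCommStmt : Prop :=
  ∀ (m : ℕ) (S : Set (U m)), (∀ a ∈ S, ∀ b ∈ S, a * b = b * a) →
    ∃ v : U m, ∀ a ∈ S, ∃ t, a = v * diagU t * v⁻¹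

/-- Weights of a representation of the two dimensional torus. -/
def DiagTorusStmt : Prop :=
  ∀ (m : ℕ) (φ : Circle × Circle →ₜ* U m), ∃ (v : U m) (w : Fin m → Z2),
    ∀ x y, φ (x, y) = v * diagU (fun i => x ^ (w i).1 * y ^ (w i).2) * v⁻¹

/-- The weights of a faithful representation of a model form a good system. -/
def WeightsStmt : Prop :=
  ∀ (A : Type) [Group A] [TopologicalSpace A] (M : Model A) (m : ℕ) (α : A →ₜ* U m),
    Function.Injective α → ∀ (v : U m) (w : Fin m → Z2),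
    (∀ x y, α (M.ι (x, y)) = v * diagU (fun i => x ^ (w i).1 * y ^ (w i).2) * v⁻¹) →
    ∃ c : ℕ, 0 < c ∧ Good c w

/-- The combinatorial core. -/
def CoreStmt : Prop :=
  ∀ (m c : ℕ), 0 < c → ∀ w w' : Fin m → Z2, Good c w → Good c w' →
    ∀ e e' : Fin 3 → Fin m → ℤ, (∀ j, ∃ i, ¬ (4 : ℤ) ∣ e j i) → (∀ j, ∃ i, ¬ (4 : ℤ) ∣ e' j i) →
    ∃ f g : (Fin m → ℤ) →₀ ℤ, Pos f ∧ Pos g ∧
      Finsupp.mapDomain (ell w) f = Finsupp.mapDomain (ell w') g ∧
      ∀ j, (f.sum fun l a => (a : ℂ) * chi (e j) l) = g.sum fun l a => (a : ℂ) * chi (e' j) l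

/-- Amalgamation inside unitary groups. -/
def AmalgStmt : Prop :=
  ∀ (A : Type) [Group A] [TopologicalSpace A] [IsTopologicalGroup A] [CompactSpace A]
    [T2Space A] (_ : Model A) (m k : ℕ) (α : A →ₜ* U m) (β : A →ₜ* U k),
    Function.Injective α → Function.Injective β →
    ∃ (n : ℕ) (ρ : U m →ₜ* U n) (π : U k →ₜ* U n),
      Function.Injective ρ ∧ Function.Injective π ∧ ∀ a, ρ (α a) = π (β a)

/-- Models are amalgamation bases. -/
def InClassStmt : Prop :=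
  ∀ (A : Type) [Group A] [TopologicalSpace A] [IsTopologicalGroup A] [CompactSpace A]
    [T2Space A] (_ : Model A), InClass.{u} A

/-- There is a model, and its identity component is not an amalgamation base. -/
def ModelStmt : Prop :=
  ∃ (A : Type) (_ : Group A) (_ : TopologicalSpace A) (_ : IsTopologicalGroup A)
    (_ : CompactSpace A) (_ : T2Space A) (_ : Model A),
    ¬ InClass.{u} (Subgroup.connectedComponentOfOne A)

/-- The fibre sums of a radial weight almost agree for two good systems. -/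
def WittStmt : Prop :=
  ∀ (m c : ℕ), 0 < c → ∀ w w' : Fin m → Z2, Good c w → Good c w' →
    ∃ M B : ℕ, 1 ≤ M ∧ ∀ K X : ℕ, 1 ≤ K → K ≤ X → ∀ η : Z2,
      |((Finsupp.mapDomain (ell w) (rad m K X (c * M ^ 2)) η -
          Finsupp.mapDomain (ell w') (rad m K X (c * M ^ 2)) η : ℤ) : ℝ)| ≤
        ((B : ℝ) * X) ^ m *
          ((B : ℝ) * K * (√((X : ℝ) - (M : ℝ) ^ 2 * n2 η) + K)) ^ K / K.factorial

/-- A radial weight is almost orthogonal to a nontrivial character. -/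
def CharAbelStmt : Prop :=
  ∀ (m a : ℕ), 1 ≤ a → ∀ e : Fin m → ℤ, (∃ i, ¬ (4 : ℤ) ∣ e i) →
    ∃ B : ℕ, ∀ K X : ℕ, 1 ≤ K → K ≤ X →
      ‖(rad m K X a).sum fun l x => (x : ℂ) * chi e l‖ ≤
        ((B : ℝ) * X) ^ m * ((B : ℝ) * K * (√(X : ℝ) + K)) ^ K / K.factorial

/-- Lower bound for the Schur coefficients of a radial weight. -/
def RoomStmt : Prop :=
  ∀ (m K X a : ℕ), 1 ≤ a → m.choose 2 ≤ K → ∀ l : Fin m → ℤ, Antitone l →
    hK (K - m.choose 2) (X - a * sq l - m.choose 2) ≤ coef (rad m K X a) l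

/-- The shifted weights are longer than a dominant weight. -/
def ShiftStmt : Prop :=
  ∀ (m : ℕ) (l : Fin m → ℤ), Antitone l → ∀ (σ : Equiv.Perm (Fin m)) (i : Fin m),
    sq l + 2 * |l i - l (σ i)| ≤ sq (shift l σ)

/-- Existence of a radius whose outer layer avoids finitely many lines. -/
def GenericStmt : Prop :=
  ∀ (V : Finset Z2), (∀ z ∈ V, z ≠ 0) → ∀ M : ℕ, 1 ≤ M → ∃ B : ℕ, ∀ N G S : ℕ, 1 ≤ N →
    B * (G + 1) * (S + 1) ≤ N → ∃ X : ℕ, N ^ 2 ≤ X ∧ X ≤ 2 * N ^ 2 ∧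
      ∀ η : Z2, (X : ℤ) - G ≤ (M : ℤ) ^ 2 * n2 η → (M : ℤ) ^ 2 * n2 η ≤ X →
        ∀ z ∈ V, (S : ℤ) ≤ |det2 η z|

end Pool.Agent.MP_caba0b_al.H78
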